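import Pool.Agent.X281.OB.Num5

/-!
# The pro-`ℓ` section conjecture for all ramified twists of the cyclic coverings of prime degree `ℓ ≠ p` of
the line with good branch locus over `p`-adic fields

Let `k` be a finite extension of `ℚ_p`, or any complete discretely valued field of characteristic
zero with finite residue field, let `A` be its valuation ring and `ℓ` a prime number which is
invertible in `A`.  Let `f_i ∈ A[x]` be polynomials with invertible leading coefficients whose
product has separable reduction, let `c_i` be exponents which are not divisible by `ℓ`, and suppose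
that `ℓ` divides `∑ c_i deg f_i`, so that infinity is not a branch point.  Let `d ∈ k` be an element
whose valuation is not divisible by `ℓ`, and let `C` be the smooth projective curve
`d y^ℓ = ∏ f_i(x)^(c_i)` over `k`, a cyclic covering of the projective line of degree `ℓ` with
`n = ∑ deg f_i` branch points and of genus `(ℓ - 1)(n - 2)/2`.  The only condition on `n` is `n ≥ 3`, that
is, the genus is at least one.

Let `F = k(x, y)` be the function field of `C`, and let `M` be the maximal pro-`ℓ` extension of
`k̄ F` that is unramified over `C`, so that `Gal(M/F)` is the geometrically pro-`ℓ` fundamental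
group of `C`.

**Theorem.**  For every section `s` of `Gal(M/F) → G_k` there is exactly one prolongation `W` to `M`
of the valuation of a branch point such that the image of `s` is contained in the decomposition group
of `W`, and the branch point is a rational point of `C`.

So the sections of the geometrically pro-`ℓ` fundamental group are exactly the sections of the
rational branch points, and if no `f_i` has a root in `k` there are no sections.  These curves have bad
reduction and acquire good reduction over `k(δ)`, `δ^ℓ = d`.  Over every finite extension of degree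
prime to `ℓ` the same is true.  For `ℓ = 3` these are all ramified twists of the curves
`y³ = f(x) g(x)²` of genus `≥ 1` with good branch points, in particular of the Picard curves; for `n = 3`
they are the ramified twists of the quotients `y^ℓ = x^a (1 - x)^b` of the Fermat curves with their
branch points moved away from infinity; for `n = 4`, `ℓ ≥ 3` and exponents `1, -1, 1, -1` the twists of the
curves `y^ℓ = (x - a)(x - c)/((x - b)(x - d))` of genus `ℓ - 1`.

The starting library has this theorem for `c_i = 1` and `ℓ ∣ n` (`MP_c385f6_ag.ProEllSections`).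

Proof.  (1) Let `κ = k̄`, let `B` be the set of the branch points and `E = k(B)`.  The case `ℓ ∣ n` can
be treated with `Y^ℓ = ∏ (x - b)`, because `κ(x, y)` and `κ(x, Y)` have the same maximal unramified
pro-`ℓ` extension `M`; the group `G_k` acts on `Y` through a Kummer cocycle, which must be ramified
(`orb_padicM`; it gives the theorem for `ℓ = 2`).  (2) Let `ℓ ≥ 3`.  For `b₁ ≠ b₂` in `B` and `υ ∈ κ^×` let
`T^ℓ = υ (x - b₁)/(x - b₂)`.  The points of the line with coordinate `T` above the other branch points
form a set `B̃` with `ℓ (n - 2)` elements, and with `Y^ℓ = ∏_{B̃} (T - e)` the fields `κ(x, y)` and `κ(T, Y)`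
have the same maximal unramified pro-`ℓ` extension `M` (`mob_glue3`).  So `G_E` acts on `T` through a Kummer
cocycle.  (3) For three elements `b₀`, `b₁`, `b₂` of `B` let `U^ℓ = ((b₂ - b₀)/(b₂ - b₁)) (x - b₁)/(x - b₀)` and
`V^ℓ = U^ℓ - 1`, a constant times `(x - b₂)/(x - b₀)`.  The field `M` contains the maximal unramified pro-`ℓ`
extension of the function field `κ(U, V)` of the Fermat curve, and the action of `G_E` preserves it
(`ferm_glue`).  An inertia element cannot multiply `U` and `V` by `ζ` and `ζ'` with `1`, `ζ`, `ζ'` pairwise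
different; this is the case of `MP_c385f6_ag.TwistedFermatCurves` in which there are no sections (the
coefficients of the Fermat equation have pairwise incongruent valuations modulo `ℓ`).  Hence inertia acts
trivially on one of the three elements `((x - b)/(x - b'))^(1/ℓ)` given by `b₀`, `b₁`, `b₂` (`exists_T3`).  (4) A twist of this `T` by a unit is then fixed by `G_E`, and `B̃` is a good
set of branch points.  The element `y`, multiplied by a function of `T`, is a root of
`∏_{B̃} (T - e)^(c_e)`, and the section acts on it through a ramified cocycle.  As `ℓ` divides the number of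
the elements of `B̃`, the case (1) shows that `G_E` fixes exactly one place `W` of `M` above `B̃`.  It fixes
no place above `b₁` or `b₂`.  (5) By the uniqueness `W` is fixed by `G_k` (`many_dec3`).
-/

open Polynomial

namespace Pool.Agent.Results.MP_c385f6_ag.CyclicCoversOfPrimeDegree

section definitions

variable (ℓ : ℕ) (k F Ω : Type) [Field k] [Field F] [Field Ω] [Algebra k F] [Algebra F Ω]
  [Algebra k Ω]

/-- The inertia group of the valuation ring `W` of `Ω`, as a subgroup of `Gal(Ω/F)`: the
automorphisms of `Ω` over `F` that map `W` onto itself and act as the identity on its residue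
field. -/
noncomputable def inertia (W : ValuationSubring Ω) : Subgroup (Ω ≃ₐ[F] Ω) :=
  (W.inertiaSubgroup F).map (W.decompositionSubgroup F).subtype

/-- `F_U`, for a set `U` of valuation rings of `F`: the elements of `Ω` fixed by the inertia groups
of all valuation rings `W` of `Ω` with `W ∩ F ∈ U`.  If `Ω` is an algebraic closure of a field `F`
of characteristic zero, this is the maximal extension of `F` in `Ω` unramified over `U`. -/
noncomputable def unramified (U : Set (ValuationSubring F)) : IntermediateField F Ω :=
  ⨅ W : {W : ValuationSubring Ω // W.comap (algebraMap F Ω) ∈ U},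
    IntermediateField.fixedField (inertia F Ω W.1)

/-- `k̄ F`, the compositum of `F` and of the algebraic closure of `k` in `Ω`. -/
noncomputable def geomField : IntermediateField F Ω :=
  IntermediateField.adjoin F (algebraicClosure k Ω : Set Ω)

/-- The algebraic extension `L` of `K` in `Ω` is unramified at all valuation rings of `Ω` that
contain `k`: every nonzero element of `L` has the same valuation as an element of `K`.  (If `K` is
a function field of one variable over the algebraic closure of `k` and `k` has characteristic zero,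
then this says that `L/K` is unramified over all points of the smooth projective curve.) -/
def Unramified {k K Ω : Type} [Field k] [Field K] [Field Ω] [Algebra k Ω] [Algebra K Ω]
    (L : IntermediateField K Ω) : Prop :=
  ∀ W : ValuationSubring Ω, (∀ c : k, algebraMap k Ω c ∈ W) → ∀ z ∈ L, z ≠ 0 →
    ∃ t : K, t ≠ 0 ∧ z / algebraMap K Ω t ∈ W ∧ (z / algebraMap K Ω t)⁻¹ ∈ W

/-- `L/K` is a finite Galois extension whose degree is a power of `ℓ`. -/
def FiniteProEll (ℓ : ℕ) {K Ω : Type} [Field K] [Field Ω] [Algebra K Ω]
    (L : IntermediateField K Ω) : Prop :=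
  FiniteDimensional K L ∧ IsGalois K L ∧ ∃ m : ℕ, Module.finrank K L = ℓ ^ m

/-- The maximal unramified pro-`ℓ` extension of `K` in `Ω`: the compositum of the finite Galois
extensions of `K` whose degree is a power of `ℓ` and which are unramified. -/
noncomputable def maxProEll (ℓ : ℕ) (k K Ω : Type) [Field k] [Field K] [Field Ω] [Algebra k Ω]
    [Algebra K Ω] : IntermediateField K Ω :=
  ⨆ L : {L : IntermediateField K Ω // FiniteProEll ℓ L ∧ Unramified (k := k) L}, L.1

/-- `M`, the maximal unramified pro-`ℓ` extension of `k̄ F` in `Ω`, as an extension of `F`. -/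
noncomputable def proEllField : IntermediateField F Ω :=
  (maxProEll ℓ k (geomField k F Ω) Ω).restrictScalars F

/-- The map `τ : M → M` acts as `σ : K → K` on the elements that the fields `K` and `M` have in
common when they are regarded as subfields of `Ω` through `i` and `j`. -/
def ActsAs {K M Ω : Type} [Field K] [Field M] [Field Ω] (i : K →+* Ω) (j : M →+* Ω) (σ : K → K)
    (τ : M → M) : Prop :=
  ∀ c z, j z = i c → j (τ z) = i (σ c)

/-- Let `k ⊆ K ⊆ Ω` and `F ⊆ N ⊆ Ω` be fields.  A splitting of `Gal(N/F) → Gal(K/k)`: a continuous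
homomorphism `s` from `Gal(K/k)` to `Gal(N/F)` such that `s(σ)` acts as `σ` on the elements of
`K ∩ N`. -/
structure Splitting (K N : Type) [Field K] [Field N] [Algebra k K] [Algebra F N] [Algebra K Ω]
    [Algebra N Ω] where
  /-- the homomorphism `Gal(K/k) → Gal(N/F)` -/
  toHom : (K ≃ₐ[k] K) →* (N ≃ₐ[F] N)
  cont : Continuous toHom
  compat : ∀ σ : K ≃ₐ[k] K, ActsAs (algebraMap K Ω) (algebraMap N Ω) σ (toHom σ)

end definitions

section places

/-- The valuation ring `W` of `N` contains `k`, and the function `t ∈ F` is in its maximal ideal. -/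
def ZeroAt (k : Type) {F N : Type} [Field k] [Field F] [Field N] [Algebra k F] [Algebra F N]
    (W : ValuationSubring N) (t : F) : Prop :=
  (∀ c : k, algebraMap F N (algebraMap k F c) ∈ W) ∧ algebraMap F N t ∈ W.nonunits

/-- The residue field of `W ∩ F` is `k`. -/
def RationalResidue (k F : Type) {N : Type} [Field k] [Field F] [Field N] [Algebra k F]
    [Algebra F N] (W : ValuationSubring N) : Prop :=
  ∀ z : F, algebraMap F N z ∈ W → ∃ c : k, algebraMap F N (z - algebraMap k F c) ∈ W.nonunits

/-- The image of `s : Gal(K/k) → Gal(N/F)` in `Gal(M/F)`, where `M ⊆ N ⊆ Ω`, is contained in the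
decomposition group of the valuation ring `W ∩ M`. -/
def InDecomposition {k F Ω K N : Type} [Field k] [Field F] [Field Ω] [Field K] [Field N]
    [Algebra k K] [Algebra F N] [Algebra F Ω] [Algebra K Ω] [Algebra N Ω]
    (s : Splitting k F Ω K N) (M : IntermediateField F Ω) (W : ValuationSubring N) : Prop :=
  ∀ σ, ∀ z : N, algebraMap N Ω z ∈ M → (s.toHom σ z ∈ W ↔ z ∈ W)

/-- The splitting `s` of `Gal(N/F) → Gal(K/k)` induces on `M ⊆ N` the section of exactly one branch
point, and this is a rational one: there is a valuation ring `W` of `N` above a branch point `x = e`,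
where `e ∈ k` is a root of one of the `f_i`, with residue field `k`, such that the image of `s` in
`Gal(M/F)` is contained in the decomposition group of `W ∩ M`; and `W ∩ M` is the only such valuation
ring above a branch point, that is, with some `f_i(x)` in its maximal ideal. -/
def FromOneBranchPoint {ι k F Ω K N : Type} [Field k] [Field F] [Field Ω] [Field K] [Field N]
    [Algebra k F] [Algebra k K] [Algebra F N] [Algebra F Ω] [Algebra K Ω] [Algebra N Ω]
    (f : ι → k[X]) (x : F) (s : Splitting k F Ω K N) (M : IntermediateField F Ω) : Prop :=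
  ∃ W : ValuationSubring N,
    (∃ e : k, (∃ i, (f i).eval e = 0) ∧ ZeroAt k W (x - algebraMap k F e)) ∧
    RationalResidue k F W ∧ InDecomposition s M W ∧
    ∀ W' : ValuationSubring N, (∃ i, ZeroAt k W' (aeval x (f i))) → InDecomposition s M W' →
      ∀ z : N, algebraMap N Ω z ∈ M → (z ∈ W' ↔ z ∈ W)

end places

section curves

/-- `F = k(x, y)` is the function field of the curve `d y^ℓ = ∏ f_i(x)^(c_i)`. -/
def IsFunctionField {ι k F : Type} [Fintype ι] [Field k] [Field F] [Algebra k F] (ℓ : ℕ)
    (f : ι → k[X]) (c : ι → ℕ) (d : k) (x y : F) : Prop :=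
  Transcendental k x ∧ algebraMap k F d * y ^ ℓ = ∏ i, (aeval x (f i)) ^ c i ∧
    IntermediateField.adjoin k {x, y} = (⊤ : IntermediateField k F)

/-- Let `F = k(x, y)` be the function field of the curve `C : d y^ℓ = ∏ f_i(x)^(c_i)`, let `Ω` be an
algebraic closure of `F` and `M = proEllField ℓ k F Ω`.  Then `M ⊆ F_U` for all sets `U` of valuation
rings of `F` over `k`, in particular for the set of all closed points of `C` and for its subsets.
For all extensions `N ⊇ M` of `F` in `Ω`, for instance `N = M` or `N = F_U`, every section of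
`Gal(N/F) → G_k` induces on `M` the section of exactly one branch point, and this is a rational
point of `C`. -/
def SectionsFromBranchPoints {ι : Type} [Fintype ι] (k : Type) [Field k] (ℓ : ℕ) (f : ι → k[X])
    (c : ι → ℕ) (d : k) : Prop :=
  ∀ (F Ω : Type) [Field F] [Field Ω] [Algebra k F] [Algebra F Ω] [Algebra k Ω]
    [IsScalarTower k F Ω] [IsAlgClosure F Ω] (x y : F), IsFunctionField ℓ f c d x y →
    (∀ U : Set (ValuationSubring F), (∀ O ∈ U, ∀ c : k, algebraMap k F c ∈ O) →
      proEllField ℓ k F Ω ≤ unramified F Ω U) ∧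
    ∀ N : IntermediateField F Ω, proEllField ℓ k F Ω ≤ N →
      ∀ s : Splitting k F Ω (algebraicClosure k Ω) N,
        FromOneBranchPoint f x s (proEllField ℓ k F Ω)

/-- The leading coefficients of the `f_i ∈ A[x]` are invertible, the product `∏ f_i` has separable
reduction, the exponents `c_i` are not divisible by `ℓ`, `∑ c_i deg f_i` is divisible by `ℓ`, and
`∑ deg f_i`, which is the number of branch points, is at least three. -/
structure GoodEquation {A ι : Type} [CommRing A] [IsLocalRing A] [Fintype ι] (ℓ : ℕ)
    (f : ι → A[X]) (c : ι → ℕ) : Prop where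
  lead : ∀ i, IsUnit (f i).leadingCoeff
  sep : ((∏ i, f i).map (IsLocalRing.residue A)).Separable
  three : 3 ≤ ∑ i, (f i).natDegree
  expo : ∀ i, ¬ ℓ ∣ c i
  infty : ℓ ∣ ∑ i, c i * (f i).natDegree

/-- The valuation of `d` is not divisible by `ℓ`: `d = t ϖ^m` with `t` invertible in `A`, `ϖ` a
uniformiser and `m` not divisible by `ℓ`. -/
def ValuationPrimeTo (A : Type) {k : Type} [CommRing A] [Field k] [Algebra A k] (ℓ : ℕ) (d : k) :
    Prop :=
  ∃ (ϖ t : A) (m : ℤ), Irreducible ϖ ∧ IsUnit t ∧ ¬ (ℓ : ℤ) ∣ m ∧
    d = algebraMap A k t * algebraMap A k ϖ ^ m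

end curves

lemma iSup_congr_prop {α : Type} [CompleteLattice α] {P Q : α → Prop} (h : ∀ L, P L ↔ Q L) :
    (⨆ L : {L // P L}, L.1) = ⨆ L : {L // Q L}, L.1 := by
  have h1 : P = Q := funext fun L => propext (h L)
  subst h1
  rfl

lemma proEll_eq (ℓ : ℕ) (k F Ω : Type) [Field k] [Field F] [Field Ω] [Algebra k F] [Algebra F Ω]
    [Algebra k Ω] : proEllField ℓ k F Ω = Pool.Agent.Y157.PS.geomPro ℓ k F Ω := by
  unfold proEllField Pool.Agent.Y157.PS.geomPro maxProEll Pool.Agent.Y157.PS.maxPro
  congr 1
  refine iSup_congr_prop fun L => ?_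
  constructor
  · rintro ⟨⟨h1, h2, h3⟩, h4⟩
    refine ⟨⟨h1, h2, h3⟩, fun W hW z hz hz0 => ?_⟩
    obtain ⟨t, ht, h5, h6⟩ := h4 W hW z hz hz0
    exact ⟨t, ht, div_ne_zero hz0 ((_root_.map_ne_zero _).2 ht), h5, h6⟩
  · rintro ⟨⟨h1, h2, h3⟩, h4⟩
    refine ⟨⟨h1, h2, h3⟩, fun W hW z hz hz0 => ?_⟩
    obtain ⟨t, ht, -, h5, h6⟩ := h4 W hW z hz hz0
    exact ⟨t, ht, h5, h6⟩

/-- Let `A` be a complete discrete valuation ring with finite residue field and with field of
fractions `k` of characteristic zero, `ℓ` a prime number invertible in `A`, `f_i ∈ A[x]` polynomials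
with invertible leading coefficients whose product has separable reduction, `c_i` exponents not
divisible by `ℓ`, such that `ℓ` divides `∑ c_i deg f_i`, and the number `n = ∑ deg f_i` of branch points is
at least three, and let `d ∈ k` be an element whose valuation is not divisible by `ℓ`.  Then every
section of the fundamental group of the curve `d y^ℓ = ∏ f_i(x)^(c_i)`, of its open subcurves, and of
the geometrically pro-`ℓ` fundamental group of the curve, induces on the latter the section of exactly
one branch point, and this is a rational point. -/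
theorem result (A k ι : Type) [CommRing A] [IsDomain A] [IsDiscreteValuationRing A]
    [IsAdicComplete (IsLocalRing.maximalIdeal A) A] [Finite (IsLocalRing.ResidueField A)]
    [Field k] [CharZero k] [Algebra A k] [IsFractionRing A k] [Fintype ι] (ℓ : ℕ) [Fact ℓ.Prime]
    (f : ι → A[X]) (c : ι → ℕ) (d : k) (hℓ : IsUnit (ℓ : A)) (hf : GoodEquation ℓ f c)
    (hd : ValuationPrimeTo A ℓ d) :
    SectionsFromBranchPoints k ℓ (fun i => (f i).map (algebraMap A k)) c d := by
  obtain ⟨ϖ, t, m, hϖ, ht, hm, rfl⟩ := hd
  have hcase : 3 ≤ ℓ ∨ ℓ ∣ ∑ i, (f i).natDegree := by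
    have h2 := (Fact.out : ℓ.Prime).two_le
    rcases h2.eq_or_lt with h2 | h2
    · right
      rw [← h2] at hf ⊢
      have h4 : ∀ i, c i * (f i).natDegree ≡ (f i).natDegree [MOD 2] := by
        intro i
        have h5 := hf.expo i
        have h6 : c i ≡ 1 [MOD 2] := by
          unfold Nat.ModEq
          omega
        simpa using h6.mul_right (f i).natDegree
      have h5 : ∑ i, c i * (f i).natDegree ≡ ∑ i, (f i).natDegree [MOD 2] :=
        Nat.ModEq.sum fun i _ => h4 i
      exact (h5.dvd_iff (dvd_refl 2)).1 hf.infty
    · left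
      omega
  intro F Ω _ _ _ _ _ _ _ x y hxyF
  obtain ⟨hx, hxy, hF⟩ := hxyF
  have hcl : IsAlgClosed Ω := IsAlgClosure.isAlgClosed F
  have halg : Algebra.IsAlgebraic F Ω := IsAlgClosure.isAlgebraic
  have hV : Pool.Agent.X281.FL.Val ϖ (algebraMap A k t * algebraMap A k ϖ ^ m) m := ⟨t, ht, rfl⟩
  have hd0 : algebraMap k F (algebraMap A k t * algebraMap A k ϖ ^ m) ≠ 0 :=
    (_root_.map_ne_zero _).2 (hV.ne_zero hϖ)
  have hFx := Pool.Agent.X281.OB.alg_of_pow (Fact.out : ℓ.Prime).pos x y (by
    have h1 : y ^ ℓ = algebraMap k F (algebraMap A k t * algebraMap A k ϖ ^ m)⁻¹ *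
        ∏ i, (aeval x ((f i).map (algebraMap A k))) ^ c i := by
      rw [← hxy, map_inv₀, inv_mul_cancel_left₀ hd0]
    rw [h1]
    exact mul_mem (IntermediateField.algebraMap_mem _ _)
      (prod_mem fun i _ => pow_mem (Pool.Agent.X281.OB.aeval_mem x _) _)) hF
  rw [proEll_eq]
  refine ⟨fun U hU => ?_, fun N hN s => ?_⟩
  · exact (Pool.Agent.Y157.PS.a_ind ℓ k F Ω x hx hFx U hU).1
  · rcases hcase with hodd | hnum
    · obtain ⟨W, ⟨⟨h1, ⟨e, ⟨i, he⟩, h2⟩, h3'⟩, h4⟩, hun⟩ :=
        Pool.Agent.X281.OB.num_padicM hℓ f c hf.lead hf.sep hodd hf.three hf.expo hf.infty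
          ϖ hϖ _ m hm hV x y hx hxy hF N hN s.toHom s.cont (fun σ c z hz => s.compat σ c z hz)
      refine ⟨W, ⟨e, ⟨i, ?_⟩, h1, h2⟩, h3', h4, ?_⟩
      · rwa [aeval_def, Algebra.algebraMap_self, eval₂_id] at he
      · rintro W' ⟨j, b1⟩ b2
        exact hun W' b1.1 ⟨j, b1.2⟩ b2
    · obtain ⟨W, ⟨⟨h1, ⟨e, ⟨i, he⟩, h2⟩, h3'⟩, h4⟩, hun⟩ :=
        Pool.Agent.X281.OB.orb_padicM hℓ f c hf.lead hf.sep hnum hf.three hf.expo hf.infty
          ϖ hϖ _ m hm hV x y hx hxy hF N hN s.toHom s.cont (fun σ c z hz => s.compat σ c z hz)
      refine ⟨W, ⟨e, ⟨i, ?_⟩, h1, h2⟩, h3', h4, ?_⟩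
      · rwa [aeval_def, Algebra.algebraMap_self, eval₂_id] at he
      · rintro W' ⟨j, b1⟩ b2
        exact hun W' b1.1 ⟨j, b1.2⟩ b2

end Pool.Agent.Results.MP_c385f6_ag.CyclicCoversOfPrimeDegree
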