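import Pool.Agent.X281.OB.FQuot

/-!
# The pro-`ℓ` section conjecture for the quotients of Fermat curves over `p`-adic fields, `ℓ ≠ p`

Let `k` be a finite extension of `ℚ_p`, or any complete discretely valued field of characteristic
zero with finite residue field, let `A` be its valuation ring and `ℓ` a prime number which is
invertible in `A`.  Let `a`, `b` be natural numbers such that `a`, `b`, `a + b` are not divisible by
`ℓ`, and `d ∈ k` an element whose valuation is not divisible by `ℓ`.  Let `C` be the smooth
projective curve with the affine equation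

`d y^ℓ = x^a (1 - x)^b`,

of genus `(ℓ - 1)/2`, a cyclic covering of the line of degree `ℓ` with three branch points, twisted by
`d`.  For `a = b = 1` it is the hyperelliptic curve `w² = 1 - 4 d y^ℓ`, where `w = 1 - 2 x`.  Its cusps
are the points over `x = 0, 1, ∞`; they are rational points.

Let `F = k(x, y)` be the function field of `C`, and let `M` be the maximal pro-`ℓ` extension of
`k̄ F` that is unramified over `C`, so that `Gal(M/F)` is the geometrically pro-`ℓ` fundamental
group of `C`.

**Theorem.**  For every section `s` of `Gal(M/F) → G_k` there is exactly one prolongation `W` to `M`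
of the valuation of a cusp such that the image of `s` is contained in the decomposition group of
`W`.

So the geometrically pro-`ℓ` fundamental group of `C` has, up to conjugation, exactly three sections:
those of the three cusps.

Proof.  (1) Let `κ = k̄` and `u^ℓ = x`, `v^ℓ = x - 1`.  The curve `κ(u, v)` is the Fermat curve and an
unramified covering of `C` of degree `ℓ`.  The fields `κF` and `κ(u, v)` have the same maximal
unramified pro-`ℓ` extension `M` (`ferm_maxPro`: uniformisers and approximation at all valuation
rings, and pro-`ℓ` elements over `κ(x)` and over `κ(u)`).  (2) A section `s` acts on `u` and `v`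
through cocycles with values in the `ℓ`-th roots of unity; by Hilbert's theorem 90 there are
constants `c'`, `c` such that `s` fixes `u₁ = u/c'` and `v₁ = v/c`, and then `t' = c'^ℓ` and `t = c^ℓ`
are in `k` and `t' u₁^ℓ - t v₁^ℓ = 1`.  So `s` is a section for a twisted Fermat curve `C₂`, with
function field `F₂ = k(u₁, v₁) ⊇ F`.  As `s` fixes `y` we have `d λ^ℓ = t'^a (-t)^b` for some `λ ∈ k`.
So the valuations of `t'`, `t`, `1` are not all congruent modulo `ℓ`.  (3) By our theorem on twisted
Fermat curves (`MP_c385f6_ag.TwistedFermatCurves`), `s` is the section of exactly one cusp of `C₂`.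
-/

set_option autoImplicit false

open Polynomial

namespace Pool.Agent.Results.MP_c385f6_ag.FermatQuotients

section definitions

variable (ℓ : ℕ) (k F Ω : Type) [Field k] [Field F] [Field Ω] [Algebra k F] [Algebra F Ω]
  [Algebra k Ω]

/-- The inertia group of the valuation ring `W` of `Ω`, as a subgroup of `Gal(Ω/F)`: the
automorphisms of `Ω` over `F` that map `W` onto itself and act as the identity on its residue
field. -/
noncomputable def inertia (W : ValuationSubring Ω) : Subgroup (Ω ≃ₐ[F] Ω) :=
  (W.inertiaSubgroup F).map (W.decompositionSubgroup F).subtype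

/-- `F_U`, for a set `U` of valuation rings of `F`: the elements of `Ω` fixed by the inertia groups
of all valuation rings `W` of `Ω` with `W ∩ F ∈ U`.  If `Ω` is an algebraic closure of a field `F`
of characteristic zero, this is the maximal extension of `F` in `Ω` unramified over `U`. -/
noncomputable def unramified (U : Set (ValuationSubring F)) : IntermediateField F Ω :=
  ⨅ W : {W : ValuationSubring Ω // W.comap (algebraMap F Ω) ∈ U},
    IntermediateField.fixedField (inertia F Ω W.1)

/-- `k̄ F`, the compositum of `F` and of the algebraic closure of `k` in `Ω`. -/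
noncomputable def geomField : IntermediateField F Ω :=
  IntermediateField.adjoin F (algebraicClosure k Ω : Set Ω)

/-- The algebraic extension `L` of `K` in `Ω` is unramified at all valuation rings of `Ω` that
contain `k`: every nonzero element of `L` has the same valuation as an element of `K`.  (If `K` is
a function field of one variable over the algebraic closure of `k` and `k` has characteristic zero,
then this says that `L/K` is unramified over all points of the smooth projective curve.) -/
def Unramified {k K Ω : Type} [Field k] [Field K] [Field Ω] [Algebra k Ω] [Algebra K Ω]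
    (L : IntermediateField K Ω) : Prop :=
  ∀ W : ValuationSubring Ω, (∀ c : k, algebraMap k Ω c ∈ W) → ∀ z ∈ L, z ≠ 0 →
    ∃ t : K, t ≠ 0 ∧ z / algebraMap K Ω t ∈ W ∧ (z / algebraMap K Ω t)⁻¹ ∈ W

/-- `L/K` is a finite Galois extension whose degree is a power of `ℓ`. -/
def FiniteProEll (ℓ : ℕ) {K Ω : Type} [Field K] [Field Ω] [Algebra K Ω]
    (L : IntermediateField K Ω) : Prop :=
  FiniteDimensional K L ∧ IsGalois K L ∧ ∃ m : ℕ, Module.finrank K L = ℓ ^ m

/-- The maximal unramified pro-`ℓ` extension of `K` in `Ω`: the compositum of the finite Galois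
extensions of `K` whose degree is a power of `ℓ` and which are unramified. -/
noncomputable def maxProEll (ℓ : ℕ) (k K Ω : Type) [Field k] [Field K] [Field Ω] [Algebra k Ω]
    [Algebra K Ω] : IntermediateField K Ω :=
  ⨆ L : {L : IntermediateField K Ω // FiniteProEll ℓ L ∧ Unramified (k := k) L}, L.1

/-- `M`, the maximal unramified pro-`ℓ` extension of `k̄ F` in `Ω`, as an extension of `F`. -/
noncomputable def proEllField : IntermediateField F Ω :=
  (maxProEll ℓ k (geomField k F Ω) Ω).restrictScalars F

/-- The map `τ : M → M` acts as `σ : K → K` on the elements that the fields `K` and `M` have in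
common when they are regarded as subfields of `Ω` through `i` and `j`. -/
def ActsAs {K M Ω : Type} [Field K] [Field M] [Field Ω] (i : K →+* Ω) (j : M →+* Ω) (σ : K → K)
    (τ : M → M) : Prop :=
  ∀ c z, j z = i c → j (τ z) = i (σ c)

/-- Let `k ⊆ K ⊆ Ω` and `F ⊆ N ⊆ Ω` be fields.  A splitting of `Gal(N/F) → Gal(K/k)`: a continuous
homomorphism `s` from `Gal(K/k)` to `Gal(N/F)` such that `s(σ)` acts as `σ` on the elements of
`K ∩ N`. -/
structure Splitting (K N : Type) [Field K] [Field N] [Algebra k K] [Algebra F N] [Algebra K Ω]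
    [Algebra N Ω] where
  /-- the homomorphism `Gal(K/k) → Gal(N/F)` -/
  toHom : (K ≃ₐ[k] K) →* (N ≃ₐ[F] N)
  cont : Continuous toHom
  compat : ∀ σ : K ≃ₐ[k] K, ActsAs (algebraMap K Ω) (algebraMap N Ω) σ (toHom σ)

end definitions

section places

/-- The residue field of `W ∩ F` is `k`. -/
def RationalResidue (k F : Type) {N : Type} [Field k] [Field F] [Field N] [Algebra k F]
    [Algebra F N] (W : ValuationSubring N) : Prop :=
  ∀ z : F, algebraMap F N z ∈ W → ∃ c : k, algebraMap F N (z - algebraMap k F c) ∈ W.nonunits

/-- The image of `s : Gal(K/k) → Gal(N/F)` in `Gal(M/F)`, where `M ⊆ N ⊆ Ω`, is contained in the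
decomposition group of the valuation ring `W ∩ M`. -/
def InDecomposition {k F Ω K N : Type} [Field k] [Field F] [Field Ω] [Field K] [Field N]
    [Algebra k K] [Algebra F N] [Algebra F Ω] [Algebra K Ω] [Algebra N Ω]
    (s : Splitting k F Ω K N) (M : IntermediateField F Ω) (W : ValuationSubring N) : Prop :=
  ∀ σ, ∀ z : N, algebraMap N Ω z ∈ M → (s.toHom σ z ∈ W ↔ z ∈ W)

/-- The valuation ring `W` of `N` lies above a cusp of the curve `d y^ℓ = x^a (1 - x)^b`, that is, over
`x = 0`, `x = 1` or `x = ∞`: it contains `k`, and one of the functions `x`, `1 - x`, `x⁻¹` is in its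
maximal ideal. -/
def AboveCusp (k : Type) {F N : Type} [Field k] [Field F] [Field N] [Algebra k F] [Algebra F N]
    (W : ValuationSubring N) (x : F) : Prop :=
  (∀ e : k, algebraMap F N (algebraMap k F e) ∈ W) ∧
    (algebraMap F N x ∈ W.nonunits ∨ algebraMap F N (1 - x) ∈ W.nonunits ∨
      algebraMap F N x⁻¹ ∈ W.nonunits)

/-- The splitting `s` of `Gal(N/F) → Gal(K/k)` induces on `M ⊆ N` the section of exactly one cusp, and
this is a rational point: there is a valuation ring `W` of `N` above a cusp, with residue field `k`,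
such that the image of `s` in `Gal(M/F)` is contained in the decomposition group of `W ∩ M`; and
`W ∩ M` is the only such valuation ring above a cusp. -/
def FromOneCusp {k F Ω K N : Type} [Field k] [Field F] [Field Ω] [Field K] [Field N]
    [Algebra k F] [Algebra k K] [Algebra F N] [Algebra F Ω] [Algebra K Ω] [Algebra N Ω]
    (x : F) (s : Splitting k F Ω K N) (M : IntermediateField F Ω) : Prop :=
  ∃ W : ValuationSubring N, AboveCusp k W x ∧ RationalResidue k F W ∧ InDecomposition s M W ∧
    ∀ W' : ValuationSubring N, AboveCusp k W' x → InDecomposition s M W' →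
      ∀ z : N, algebraMap N Ω z ∈ M → (z ∈ W' ↔ z ∈ W)

end places

section curves

/-- `F = k(x, y)` is the function field of the curve `d y^ℓ = x^a (1 - x)^b`. -/
def IsFunctionField {k F : Type} [Field k] [Field F] [Algebra k F] (ℓ a b : ℕ) (d : k)
    (x y : F) : Prop :=
  Transcendental k x ∧ algebraMap k F d * y ^ ℓ = x ^ a * (1 - x) ^ b ∧
    IntermediateField.adjoin k {x, y} = (⊤ : IntermediateField k F)

/-- Let `F = k(x, y)` be the function field of the curve `C : d y^ℓ = x^a (1 - x)^b`, let `Ω` be an
algebraic closure of `F` and `M = proEllField ℓ k F Ω`.  Then `M ⊆ F_U` for all sets `U` of valuation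
rings of `F` over `k`, in particular for the set of all closed points of `C` and for its subsets.  For
all extensions `N ⊇ M` of `F` in `Ω`, for instance `N = M` or `N = F_U`, every section of
`Gal(N/F) → G_k` induces on `M` the section of exactly one cusp, and this is a rational point. -/
def SectionsFromCusps (k : Type) [Field k] (ℓ a b : ℕ) (d : k) : Prop :=
  ∀ (F Ω : Type) [Field F] [Field Ω] [Algebra k F] [Algebra F Ω] [Algebra k Ω]
    [IsScalarTower k F Ω] [IsAlgClosure F Ω] (x y : F), IsFunctionField ℓ a b d x y →
    (∀ U : Set (ValuationSubring F), (∀ O ∈ U, ∀ e : k, algebraMap k F e ∈ O) →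
      proEllField ℓ k F Ω ≤ unramified F Ω U) ∧
    ∀ N : IntermediateField F Ω, proEllField ℓ k F Ω ≤ N →
      ∀ s : Splitting k F Ω (algebraicClosure k Ω) N,
        FromOneCusp x s (proEllField ℓ k F Ω)

/-- The valuation of `d` is not divisible by `ℓ`: `d = t ϖ^m` with `t` invertible in `A`, `ϖ` a
uniformiser and `m` not divisible by `ℓ`. -/
def ValuationPrimeTo (A : Type) {k : Type} [CommRing A] [Field k] [Algebra A k] (ℓ : ℕ) (d : k) :
    Prop :=
  ∃ (ϖ t : A) (m : ℤ), Irreducible ϖ ∧ IsUnit t ∧ ¬ (ℓ : ℤ) ∣ m ∧
    d = algebraMap A k t * algebraMap A k ϖ ^ m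

end curves

lemma iSup_congr_prop {α : Type} [CompleteLattice α] {P Q : α → Prop} (h : ∀ L, P L ↔ Q L) :
    (⨆ L : {L // P L}, L.1) = ⨆ L : {L // Q L}, L.1 := by
  have h1 : P = Q := funext fun L => propext (h L)
  subst h1
  rfl

lemma proEll_eq (ℓ : ℕ) (k F Ω : Type) [Field k] [Field F] [Field Ω] [Algebra k F] [Algebra F Ω]
    [Algebra k Ω] : proEllField ℓ k F Ω = Pool.Agent.Y157.PS.geomPro ℓ k F Ω := by
  unfold proEllField Pool.Agent.Y157.PS.geomPro maxProEll Pool.Agent.Y157.PS.maxPro
  congr 1
  refine iSup_congr_prop fun L => ?_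
  constructor
  · rintro ⟨⟨h1, h2, h3⟩, h4⟩
    refine ⟨⟨h1, h2, h3⟩, fun W hW z hz hz0 => ?_⟩
    obtain ⟨t, ht, h5, h6⟩ := h4 W hW z hz hz0
    exact ⟨t, ht, div_ne_zero hz0 ((_root_.map_ne_zero _).2 ht), h5, h6⟩
  · rintro ⟨⟨h1, h2, h3⟩, h4⟩
    refine ⟨⟨h1, h2, h3⟩, fun W hW z hz hz0 => ?_⟩
    obtain ⟨t, ht, -, h5, h6⟩ := h4 W hW z hz hz0
    exact ⟨t, ht, h5, h6⟩

/-- Let `A` be a complete discrete valuation ring with finite residue field and with field of
fractions `k` of characteristic zero, `ℓ` a prime number invertible in `A`, `a`, `b` natural numbers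
such that `a`, `b`, `a + b` are not divisible by `ℓ`, and `d ∈ k` an element whose valuation is not
divisible by `ℓ`.  Then every section of the fundamental group of the curve
`d y^ℓ = x^a (1 - x)^b`, of its open subcurves, and of the geometrically pro-`ℓ` fundamental group of
the curve, induces on the latter the section of exactly one cusp, and this cusp is a rational
point. -/
theorem result (A k : Type) [CommRing A] [IsDomain A] [IsDiscreteValuationRing A]
    [IsAdicComplete (IsLocalRing.maximalIdeal A) A] [Finite (IsLocalRing.ResidueField A)]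
    [Field k] [CharZero k] [Algebra A k] [IsFractionRing A k] (ℓ : ℕ) [Fact ℓ.Prime]
    (hℓ : IsUnit (ℓ : A)) (a b : ℕ) (ha : ¬ ℓ ∣ a) (hb : ¬ ℓ ∣ b) (hab : ¬ ℓ ∣ a + b) (d : k)
    (hd : ValuationPrimeTo A ℓ d) : SectionsFromCusps k ℓ a b d := by
  obtain ⟨ϖ, t, m, hϖ, ht, hm, rfl⟩ := hd
  have hodd : Odd ℓ := by
    rcases (Fact.out : ℓ.Prime).eq_two_or_odd' with h | h
    · exfalso
      subst h
      omega
    · exact h
  have hV : Pool.Agent.X281.FL.Val ϖ (algebraMap A k t * algebraMap A k ϖ ^ m) m := ⟨t, ht, rfl⟩
  intro F Ω _ _ _ _ _ _ _ x y hxyF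
  obtain ⟨hx, hxy, hF⟩ := hxyF
  have hcl : IsAlgClosed Ω := IsAlgClosure.isAlgClosed F
  have halg : Algebra.IsAlgebraic F Ω := IsAlgClosure.isAlgebraic
  have hFx := Pool.Agent.Y157.PS.alg_of_eqn (Fact.out : ℓ.Prime).pos (X ^ a * (1 - X) ^ b : k[X]) _
    (hV.ne_zero hϖ) x y (by
      rw [hxy, map_mul, map_pow, map_pow, map_sub, map_one, aeval_X]) hF
  rw [proEll_eq]
  refine ⟨fun U hU => ?_, fun N hN s => ?_⟩
  · exact (Pool.Agent.Y157.PS.a_ind ℓ k F Ω x hx hFx U hU).1
  · obtain ⟨W, h1, h2, h3, h4, hun⟩ := Pool.Agent.X281.OB.ferm_quot hodd hℓ ϖ hϖ a b ha hb hab _ m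
      hm hV x y hx hxy hF N hN s.toHom s.cont (fun σ c z hz => s.compat σ c z hz)
    exact ⟨W, ⟨h1, h2⟩, h3, h4, fun W' b1 b2 => hun W' b1.1 b1.2 b2⟩

end Pool.Agent.Results.MP_c385f6_ag.FermatQuotients
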