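import Pool.Agent.X281.FL.Main

/-!
# The pro-`ℓ` section conjecture for twisted Fermat curves over `p`-adic fields, `ℓ ≠ p`

Let `k` be a finite extension of `ℚ_p`, or any complete discretely valued field of characteristic
zero with finite residue field, let `A` be its valuation ring and let `ℓ` be an odd prime number
which is invertible in `A`.  Let `a, b, c ∈ k` be nonzero elements and let `C` be the smooth
projective curve

`a X^ℓ + b Y^ℓ = c Z^ℓ`

over `k`, of genus `(ℓ - 1)(ℓ - 2)/2`, with affine equation `a x^ℓ + b y^ℓ = c`.  If the valuations of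
`a`, `b`, `c` are congruent modulo `ℓ`, then `C` has good reduction and there are sections of the
geometrically pro-`ℓ` fundamental group of `C` which do not come from points of `C` (its sections are
those of the special fibre).  Here we treat all other curves: **the valuations of `a`, `b`, `c` are
not all congruent modulo `ℓ`**.  The cusps of `C` are its `3ℓ` geometric points with `XYZ = 0`.

Let `F = k(x, y)` be the function field of `C`, and let `M` be the maximal pro-`ℓ` extension of
`k̄ F` that is unramified over `C`, so that `Gal(M/F)` is the geometrically pro-`ℓ` fundamental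
group of `C`, the quotient of `π₁(C)` by the kernel of `π₁(C_k̄) → π₁(C_k̄)^(pro-ℓ)`.

**Theorem.**  For every section `s` of `Gal(M/F) → G_k` there is exactly one prolongation `W` to `M`
of the valuation of a cusp such that the image of `s` is contained in the decomposition group of
`W`, and this cusp is a rational point of `C`.

So the sections of the geometrically pro-`ℓ` fundamental group are exactly the sections of the
rational cusps, and different rational cusps have sections which are not conjugate.  In particular,
for all these curves the weak section conjecture holds: if `π₁(C) → G_k` or the geometrically pro-`ℓ`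
fundamental group of `C` or `π₁(U) → G_k` for an open subcurve `U` has a section, then `C(k)` is not
empty.  The same holds for all finite étale coverings of `C` that are dominated by `M`.

If the valuations of `a`, `b`, `c` are pairwise incongruent modulo `ℓ`, then `C` has no rational
points and there are no sections.  If exactly two of them are congruent, say those of `b` and `c`,
then the rational cusps are the points `(0, r)` with `r^ℓ = c/b`.

Here the theorem is stated for an arbitrary extension `N ⊇ M` of `F` in an algebraic closure `Ω`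
instead of `M`: this includes `N = M` and the fields `N = F_U` with `Gal(F_U/F) = π₁(U)`.

The fundamental group is described through valuations.  Let `U` be an open subcurve of `C`, let `Ω`
be an algebraic closure of `F`, and let `F_U` be the maximal extension of `F` inside `Ω` which is
unramified over the closed points of `U`, that is, over their local rings, which are valuation rings
of `F`.  Then `π₁(U) = Gal(F_U/F)`, and the map `π₁(U) → G_k` is the restriction of automorphisms to
the algebraic closure of `k` in `Ω`.

Proof.  (1) Two congruent valuations: after a change of coordinates `C` is the curve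
`d x₂^ℓ = 1 + g x₁^ℓ` with `ℓ ∤ v(d)` and `ℓ ∣ v(g)`; we may assume `v(g) = 0` and then the theorem on
the curves `d y^ℓ = f(x)` with `f` separable modulo the maximal ideal gives the cusp.  The other
cusps which are fixed by `s` have residue field `k`, and then `d` or `d/g` is an `ℓ`-th power in `k`,
which is not the case.  (2) Pairwise incongruent valuations: over `κ = k̄` the curve becomes the
Fermat curve `u^ℓ + w^ℓ = 1` with `u = c' x`, `w = c'' y`.  The automorphism group `(ℤ/ℓ)²` of the
Fermat curve acts on `M`.  A generator `σ` of tame inertia of `k` multiplies `c'`, `c''` and `c'/c''`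
by nontrivial roots of unity.  As the Fermat curve has good reduction, `s(σ)` acts on the residue
field of the Gauss valuation of `M` like a geometric automorphism, which lifts an automorphism of the
Fermat curve without fixed points and whose order is `ℓ` modulo weights; but elements of finite order
in a pro-`ℓ` orbifold fundamental group fix a point.
-/

set_option autoImplicit false

open Polynomial

namespace Pool.Agent.Results.MP_c385f6_ag.TwistedFermatCurves

section definitions

variable (ℓ : ℕ) (k F Ω : Type) [Field k] [Field F] [Field Ω] [Algebra k F] [Algebra F Ω]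
  [Algebra k Ω]

/-- The inertia group of the valuation ring `W` of `Ω`, as a subgroup of `Gal(Ω/F)`: the
automorphisms of `Ω` over `F` that map `W` onto itself and act as the identity on its residue
field. -/
noncomputable def inertia (W : ValuationSubring Ω) : Subgroup (Ω ≃ₐ[F] Ω) :=
  (W.inertiaSubgroup F).map (W.decompositionSubgroup F).subtype

/-- `F_U`, for a set `U` of valuation rings of `F`: the elements of `Ω` fixed by the inertia groups
of all valuation rings `W` of `Ω` with `W ∩ F ∈ U`.  If `Ω` is an algebraic closure of a field `F`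
of characteristic zero, this is the maximal extension of `F` in `Ω` unramified over `U`. -/
noncomputable def unramified (U : Set (ValuationSubring F)) : IntermediateField F Ω :=
  ⨅ W : {W : ValuationSubring Ω // W.comap (algebraMap F Ω) ∈ U},
    IntermediateField.fixedField (inertia F Ω W.1)

/-- `k̄ F`, the compositum of `F` and of the algebraic closure of `k` in `Ω`. -/
noncomputable def geomField : IntermediateField F Ω :=
  IntermediateField.adjoin F (algebraicClosure k Ω : Set Ω)

/-- The algebraic extension `L` of `K` in `Ω` is unramified at all valuation rings of `Ω` that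
contain `k`: every nonzero element of `L` has the same valuation as an element of `K`.  (If `K` is
a function field of one variable over the algebraic closure of `k` and `k` has characteristic zero,
then this says that `L/K` is unramified over all points of the smooth projective curve.) -/
def Unramified {k K Ω : Type} [Field k] [Field K] [Field Ω] [Algebra k Ω] [Algebra K Ω]
    (L : IntermediateField K Ω) : Prop :=
  ∀ W : ValuationSubring Ω, (∀ c : k, algebraMap k Ω c ∈ W) → ∀ z ∈ L, z ≠ 0 →
    ∃ t : K, t ≠ 0 ∧ z / algebraMap K Ω t ∈ W ∧ (z / algebraMap K Ω t)⁻¹ ∈ W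

/-- `L/K` is a finite Galois extension whose degree is a power of `ℓ`. -/
def FiniteProEll (ℓ : ℕ) {K Ω : Type} [Field K] [Field Ω] [Algebra K Ω]
    (L : IntermediateField K Ω) : Prop :=
  FiniteDimensional K L ∧ IsGalois K L ∧ ∃ m : ℕ, Module.finrank K L = ℓ ^ m

/-- The maximal unramified pro-`ℓ` extension of `K` in `Ω`: the compositum of the finite Galois
extensions of `K` whose degree is a power of `ℓ` and which are unramified. -/
noncomputable def maxProEll (ℓ : ℕ) (k K Ω : Type) [Field k] [Field K] [Field Ω] [Algebra k Ω]
    [Algebra K Ω] : IntermediateField K Ω :=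
  ⨆ L : {L : IntermediateField K Ω // FiniteProEll ℓ L ∧ Unramified (k := k) L}, L.1

/-- `M`, the maximal unramified pro-`ℓ` extension of `k̄ F` in `Ω`, as an extension of `F`. -/
noncomputable def proEllField : IntermediateField F Ω :=
  (maxProEll ℓ k (geomField k F Ω) Ω).restrictScalars F

/-- The map `τ : M → M` acts as `σ : K → K` on the elements that the fields `K` and `M` have in
common when they are regarded as subfields of `Ω` through `i` and `j`. -/
def ActsAs {K M Ω : Type} [Field K] [Field M] [Field Ω] (i : K →+* Ω) (j : M →+* Ω) (σ : K → K)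
    (τ : M → M) : Prop :=
  ∀ c z, j z = i c → j (τ z) = i (σ c)

/-- Let `k ⊆ K ⊆ Ω` and `F ⊆ N ⊆ Ω` be fields.  A splitting of `Gal(N/F) → Gal(K/k)`: a continuous
homomorphism `s` from `Gal(K/k)` to `Gal(N/F)` such that `s(σ)` acts as `σ` on the elements of
`K ∩ N`. -/
structure Splitting (K N : Type) [Field K] [Field N] [Algebra k K] [Algebra F N] [Algebra K Ω]
    [Algebra N Ω] where
  /-- the homomorphism `Gal(K/k) → Gal(N/F)` -/
  toHom : (K ≃ₐ[k] K) →* (N ≃ₐ[F] N)
  cont : Continuous toHom
  compat : ∀ σ : K ≃ₐ[k] K, ActsAs (algebraMap K Ω) (algebraMap N Ω) σ (toHom σ)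

end definitions

section places

/-- The residue field of `W ∩ F` is `k`. -/
def RationalResidue (k F : Type) {N : Type} [Field k] [Field F] [Field N] [Algebra k F]
    [Algebra F N] (W : ValuationSubring N) : Prop :=
  ∀ z : F, algebraMap F N z ∈ W → ∃ c : k, algebraMap F N (z - algebraMap k F c) ∈ W.nonunits

/-- The image of `s : Gal(K/k) → Gal(N/F)` in `Gal(M/F)`, where `M ⊆ N ⊆ Ω`, is contained in the
decomposition group of the valuation ring `W ∩ M`. -/
def InDecomposition {k F Ω K N : Type} [Field k] [Field F] [Field Ω] [Field K] [Field N]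
    [Algebra k K] [Algebra F N] [Algebra F Ω] [Algebra K Ω] [Algebra N Ω]
    (s : Splitting k F Ω K N) (M : IntermediateField F Ω) (W : ValuationSubring N) : Prop :=
  ∀ σ, ∀ z : N, algebraMap N Ω z ∈ M → (s.toHom σ z ∈ W ↔ z ∈ W)

/-- The valuation ring `W` of `N` lies above a cusp of the curve `a x^ℓ + b y^ℓ = c`: it contains `k`,
and one of the functions `x`, `y`, `x⁻¹`, `y⁻¹` is in its maximal ideal. -/
def AboveCusp (k : Type) {F N : Type} [Field k] [Field F] [Field N] [Algebra k F] [Algebra F N]
    (W : ValuationSubring N) (x y : F) : Prop :=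
  (∀ e : k, algebraMap F N (algebraMap k F e) ∈ W) ∧
    (algebraMap F N x ∈ W.nonunits ∨ algebraMap F N y ∈ W.nonunits ∨
      algebraMap F N x⁻¹ ∈ W.nonunits ∨ algebraMap F N y⁻¹ ∈ W.nonunits)

/-- The splitting `s` of `Gal(N/F) → Gal(K/k)` induces on `M ⊆ N` the section of exactly one cusp, and
this is a rational point: there is a valuation ring `W` of `N` above a cusp, with residue field `k`,
such that the image of `s` in `Gal(M/F)` is contained in the decomposition group of `W ∩ M`; and
`W ∩ M` is the only such valuation ring above a cusp. -/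
def FromOneCusp {k F Ω K N : Type} [Field k] [Field F] [Field Ω] [Field K] [Field N]
    [Algebra k F] [Algebra k K] [Algebra F N] [Algebra F Ω] [Algebra K Ω] [Algebra N Ω]
    (x y : F) (s : Splitting k F Ω K N) (M : IntermediateField F Ω) : Prop :=
  ∃ W : ValuationSubring N, AboveCusp k W x y ∧ RationalResidue k F W ∧ InDecomposition s M W ∧
    ∀ W' : ValuationSubring N, AboveCusp k W' x y → InDecomposition s M W' →
      ∀ z : N, algebraMap N Ω z ∈ M → (z ∈ W' ↔ z ∈ W)

end places

section curves

/-- `F = k(x, y)` is the function field of the curve `a x^ℓ + b y^ℓ = c`. -/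
def IsFunctionField {k F : Type} [Field k] [Field F] [Algebra k F] (ℓ : ℕ) (a b c : k)
    (x y : F) : Prop :=
  Transcendental k x ∧ algebraMap k F a * x ^ ℓ + algebraMap k F b * y ^ ℓ = algebraMap k F c ∧
    IntermediateField.adjoin k {x, y} = (⊤ : IntermediateField k F)

/-- Let `F = k(x, y)` be the function field of the curve `C : a x^ℓ + b y^ℓ = c`, let `Ω` be an
algebraic closure of `F` and `M = proEllField ℓ k F Ω`.  Then `M ⊆ F_U` for all sets `U` of valuation
rings of `F` over `k`, in particular for the set of all closed points of `C` and for its subsets.  For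
all extensions `N ⊇ M` of `F` in `Ω`, for instance `N = M` or `N = F_U`, every section of
`Gal(N/F) → G_k` induces on `M` the section of exactly one cusp, and this is a rational point. -/
def SectionsFromCusps (k : Type) [Field k] (ℓ : ℕ) (a b c : k) : Prop :=
  ∀ (F Ω : Type) [Field F] [Field Ω] [Algebra k F] [Algebra F Ω] [Algebra k Ω]
    [IsScalarTower k F Ω] [IsAlgClosure F Ω] (x y : F), IsFunctionField ℓ a b c x y →
    (∀ U : Set (ValuationSubring F), (∀ O ∈ U, ∀ e : k, algebraMap k F e ∈ O) →
      proEllField ℓ k F Ω ≤ unramified F Ω U) ∧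
    ∀ N : IntermediateField F Ω, proEllField ℓ k F Ω ≤ N →
      ∀ s : Splitting k F Ω (algebraicClosure k Ω) N,
        FromOneCusp x y s (proEllField ℓ k F Ω)

/-- The valuations `i`, `j`, `l` of `a`, `b`, `c` are not all congruent modulo `ℓ`: `a = u ϖ^i`,
`b = v ϖ^j`, `c = w ϖ^l` with `u`, `v`, `w` invertible in `A` and a uniformiser `ϖ`. -/
def NotAllCongruent (A : Type) {k : Type} [CommRing A] [Field k] [Algebra A k] (ℓ : ℕ)
    (a b c : k) : Prop :=
  ∃ (ϖ u v w : A) (i j l : ℤ), Irreducible ϖ ∧ IsUnit u ∧ IsUnit v ∧ IsUnit w ∧
    a = algebraMap A k u * algebraMap A k ϖ ^ i ∧ b = algebraMap A k v * algebraMap A k ϖ ^ j ∧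
    c = algebraMap A k w * algebraMap A k ϖ ^ l ∧ ¬ ((ℓ : ℤ) ∣ i - j ∧ (ℓ : ℤ) ∣ j - l)

end curves

lemma iSup_congr_prop {α : Type} [CompleteLattice α] {P Q : α → Prop} (h : ∀ L, P L ↔ Q L) :
    (⨆ L : {L // P L}, L.1) = ⨆ L : {L // Q L}, L.1 := by
  have h1 : P = Q := funext fun L => propext (h L)
  subst h1
  rfl

lemma proEll_eq (ℓ : ℕ) (k F Ω : Type) [Field k] [Field F] [Field Ω] [Algebra k F] [Algebra F Ω]
    [Algebra k Ω] : proEllField ℓ k F Ω = Pool.Agent.Y157.PS.geomPro ℓ k F Ω := by
  unfold proEllField Pool.Agent.Y157.PS.geomPro maxProEll Pool.Agent.Y157.PS.maxPro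
  congr 1
  refine iSup_congr_prop fun L => ?_
  constructor
  · rintro ⟨⟨h1, h2, h3⟩, h4⟩
    refine ⟨⟨h1, h2, h3⟩, fun W hW z hz hz0 => ?_⟩
    obtain ⟨t, ht, h5, h6⟩ := h4 W hW z hz hz0
    exact ⟨t, ht, div_ne_zero hz0 ((_root_.map_ne_zero _).2 ht), h5, h6⟩
  · rintro ⟨⟨h1, h2, h3⟩, h4⟩
    refine ⟨⟨h1, h2, h3⟩, fun W hW z hz hz0 => ?_⟩
    obtain ⟨t, ht, -, h5, h6⟩ := h4 W hW z hz hz0
    exact ⟨t, ht, h5, h6⟩

/-- Let `A` be a complete discrete valuation ring with finite residue field and with field of
fractions `k` of characteristic zero, `ℓ` an odd prime number invertible in `A`, and `a, b, c ∈ k`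
nonzero elements whose valuations are not all congruent modulo `ℓ`.  Then every section of the
fundamental group of the curve `a x^ℓ + b y^ℓ = c`, of its open subcurves, and of the geometrically
pro-`ℓ` fundamental group of the curve, induces on the latter the section of exactly one cusp, and
this cusp is a rational point. -/
theorem result (A k : Type) [CommRing A] [IsDomain A] [IsDiscreteValuationRing A]
    [IsAdicComplete (IsLocalRing.maximalIdeal A) A] [Finite (IsLocalRing.ResidueField A)]
    [Field k] [CharZero k] [Algebra A k] [IsFractionRing A k] (ℓ : ℕ) [Fact ℓ.Prime]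
    (hodd : Odd ℓ) (hℓ : IsUnit (ℓ : A)) (a b c : k) (h : NotAllCongruent A ℓ a b c) :
    SectionsFromCusps k ℓ a b c := by
  obtain ⟨ϖ, u, v, w, i, j, l, hϖ, hu, hv, hw, ha, hb, hc, hne⟩ := h
  have ha' : Pool.Agent.X281.FL.Val ϖ a i := ⟨u, hu, ha⟩
  have hb' : Pool.Agent.X281.FL.Val ϖ b j := ⟨v, hv, hb⟩
  have hc' : Pool.Agent.X281.FL.Val ϖ c l := ⟨w, hw, hc⟩
  intro F Ω _ _ _ _ _ _ _ x y hxyF
  obtain ⟨hx, hxy, hF⟩ := hxyF
  have hcl : IsAlgClosed Ω := IsAlgClosure.isAlgClosed F
  have halg : Algebra.IsAlgebraic F Ω := IsAlgClosure.isAlgebraic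
  have hFx := Pool.Agent.Y157.PS.alg_of_eqn (Fact.out : ℓ.Prime).pos (C c - C a * X ^ ℓ) b
    (hb'.ne_zero hϖ) x y (by
      rw [map_sub, aeval_C, map_mul, aeval_C, map_pow, aeval_X, ← hxy]
      ring) hF
  rw [proEll_eq]
  refine ⟨fun U hU => ?_, fun N hN s => ?_⟩
  · exact (Pool.Agent.Y157.PS.a_ind ℓ k F Ω x hx hFx U hU).1
  · obtain ⟨W, h1, h2, h3, h4, hun⟩ := Pool.Agent.X281.FL.one_cusp_abc hodd hℓ ϖ hϖ a b c i j l
      ha' hb' hc' hne x y hx hxy hF N hN s.toHom s.cont (fun σ c z hz => s.compat σ c z hz)
    exact ⟨W, ⟨h1, h2⟩, h3, h4, fun W' b1 b2 => hun W' b1.1 b1.2 b2⟩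

end Pool.Agent.Results.MP_c385f6_ag.TwistedFermatCurves
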